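import Mathlib
import Pool.Agent.H22.KF.Targets

/-!
# A closed subgroup of `GL(3, ℝ)` with the Mautner property for `ai i` is everything
-/

open MeasureTheory Filter Topology Set Function

namespace KF58

open KF

/-- elementary matrices -/
def tv (j k : Fin 3) (h : j ≠ k) (x : ℝ) : GR where
  val := Matrix.transvection j k x
  inv := Matrix.transvection j k (-x)
  val_inv := by
    rw [Matrix.transvection_mul_transvection_same _ _ h, add_neg_cancel, Matrix.transvection_zero]
  inv_val := by
    rw [Matrix.transvection_mul_transvection_same _ _ h, neg_add_cancel, Matrix.transvection_zero]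

theorem tv_coe (j k : Fin 3) (h : j ≠ k) (x : ℝ) :
    (tv j k h x : MR) = Matrix.transvection j k x := rfl

theorem tv_inv (j k : Fin 3) (h : j ≠ k) (x : ℝ) : (tv j k h x)⁻¹ = tv j k h (-x) := by
  apply Units.ext
  rfl

theorem tv_zero (j k : Fin 3) (h : j ≠ k) : tv j k h 0 = 1 := by
  apply Units.ext
  rw [tv_coe, Matrix.transvection_zero]; rfl

theorem continuous_tv (j k : Fin 3) (h : j ≠ k) : Continuous (tv j k h) := by
  rw [isEmbedding_coe.continuous_iff]
  refine continuous_matrix ?_
  intro a b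
  simp only [Function.comp, tv_coe, Matrix.transvection, Matrix.add_apply, Matrix.single_apply]
  split_ifs <;> fun_prop

/-- commutator of two elementary matrices -/
theorem tv_comm (i j k : Fin 3) (hji : j ≠ i) (hik : i ≠ k) (hjk : j ≠ k) (x y : ℝ) :
    tv j i hji x * tv i k hik y * tv j i hji (-x) * tv i k hik (-y) = tv j k hjk (x * y) := by
  apply Units.ext
  simp only [Units.val_mul, tv_coe, Matrix.transvection, Matrix.mul_add, Matrix.add_mul,
    Matrix.mul_one, Matrix.one_mul, Matrix.single_mul_single_same,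
    Matrix.single_mul_single_of_ne _ _ _ _ hji.symm,
    Matrix.single_mul_single_of_ne _ _ _ _ hik.symm,
    Matrix.single_mul_single_of_ne _ _ _ _ hji,
    Matrix.single_mul_single_of_ne _ _ _ _ hik,
    Matrix.single_mul_single_of_ne _ _ _ _ hjk.symm, add_zero, zero_add, Matrix.zero_mul]
  ext a b
  simp only [Matrix.add_apply, Matrix.single_apply, Matrix.one_apply]
  split_ifs <;> ring

/-- diagonal matrices -/
def dm (d : Fin 3 → ℝˣ) : GR where
  val := Matrix.diagonal (fun i => (d i : ℝ))
  inv := Matrix.diagonal (fun i => (((d i)⁻¹ : ℝˣ) : ℝ))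
  val_inv := by
    rw [Matrix.diagonal_mul_diagonal, ← Matrix.diagonal_one]
    congr 1
    funext i
    simp
  inv_val := by
    rw [Matrix.diagonal_mul_diagonal, ← Matrix.diagonal_one]
    congr 1
    funext i
    simp

theorem dm_coe (d : Fin 3 → ℝˣ) : (dm d : MR) = Matrix.diagonal (fun i => (d i : ℝ)) := rfl

theorem dm_mul (d e : Fin 3 → ℝˣ) : dm (d * e) = dm d * dm e := by
  apply Units.ext
  rw [Units.val_mul, dm_coe, dm_coe, dm_coe, Matrix.diagonal_mul_diagonal]
  congr 1

theorem dm_one : dm 1 = 1 := by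
  apply Units.ext
  rw [dm_coe, Units.val_one, ← Matrix.diagonal_one]
  congr 1

theorem continuous_dm : Continuous dm := by
  rw [isEmbedding_coe.continuous_iff]
  refine continuous_matrix ?_
  intro i j
  simp only [Function.comp, dm_coe, Matrix.diagonal_apply]
  split_ifs
  · exact Units.continuous_val.comp (continuous_apply i)
  · exact continuous_const

theorem weyl (j k : Fin 3) (h : j ≠ k) (t : ℝ) (ht : t ≠ 0) :
    ((tv j k h t * tv k j h.symm (-t⁻¹) * tv j k h t : GR) : MR)
      = 1 - Matrix.single j j 1 - Matrix.single k k 1 + Matrix.single j k t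
        - Matrix.single k j t⁻¹ := by
  simp only [Units.val_mul, tv_coe, Matrix.transvection, Matrix.mul_add, Matrix.add_mul,
    Matrix.mul_one, Matrix.one_mul, Matrix.single_mul_single_same,
    Matrix.single_mul_single_of_ne _ _ _ _ h,
    Matrix.single_mul_single_of_ne _ _ _ _ h.symm, add_zero, zero_add, Matrix.zero_mul]
  ext a b
  simp only [Matrix.add_apply, Matrix.sub_apply, Matrix.single_apply, Matrix.one_apply]
  split_ifs <;> field_simp <;> ring

/-- the diagonal matrix with `t` at `j` and `t⁻¹` at `k` is a product of elementary matrices -/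
theorem dm_eq (j k : Fin 3) (h : j ≠ k) (t : ℝˣ) :
    dm (Pi.mulSingle j t * Pi.mulSingle k t⁻¹)
      = (tv j k h t * tv k j h.symm (-(t : ℝ)⁻¹) * tv j k h t) *
        (tv j k h (-1) * tv k j h.symm (-(-1 : ℝ)⁻¹) * tv j k h (-1)) := by
  apply Units.ext
  rw [Units.val_mul, weyl j k h t t.ne_zero, weyl j k h (-1) (by norm_num), dm_coe]
  simp only [Matrix.mul_add, Matrix.add_mul, Matrix.mul_sub, Matrix.sub_mul,
    Matrix.mul_one, Matrix.one_mul, Matrix.single_mul_single_same,
    Matrix.single_mul_single_of_ne _ _ _ _ h,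
    Matrix.single_mul_single_of_ne _ _ _ _ h.symm, add_zero, zero_add, sub_zero]
  ext a b
  simp only [Matrix.add_apply, Matrix.sub_apply, Matrix.single_apply, Matrix.one_apply,
    Matrix.diagonal_apply, Pi.mul_apply, Pi.mulSingle_apply, Matrix.neg_apply, Matrix.zero_apply]
  rcases eq_or_ne a j with rfl | haj
  · rcases eq_or_ne b a with rfl | hba
    · simp [h, h.symm]
    · rcases eq_or_ne b k with rfl | hbk
      · simp [h, h.symm]
      · simp [h, h.symm, hba, hba.symm, hbk, hbk.symm]
  · rcases eq_or_ne a k with rfl | hak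
    · rcases eq_or_ne b a with rfl | hba
      · simp [h, h.symm]
      · rcases eq_or_ne b j with rfl | hbj
        · simp [h, h.symm]
        · simp [h, h.symm, hba, hba.symm, hbj, hbj.symm]
    · rcases eq_or_ne a b with rfl | hab
      · simp [haj, haj.symm, hak, hak.symm]
      · simp [haj, haj.symm, hak, hak.symm, hab]

theorem dg_inv (s : Fin 3 → ℝ) : (dg s)⁻¹ = dg (-s) := by
  rw [inv_eq_iff_mul_eq_one, ← dg_add, add_neg_cancel, dg_zero]

theorem dg_pow (s : Fin 3 → ℝ) (n : ℕ) : dg s ^ n = dg (fun i => (n : ℝ) * s i) := by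
  induction n with
  | zero =>
    rw [pow_zero, ← dg_zero]
    congr 1
    funext i
    simp
  | succ n ih =>
    rw [pow_succ, ih, ← dg_add]
    congr 1
    funext i
    simp only [Pi.add_apply]
    push_cast
    ring

theorem dg_conj (s : Fin 3 → ℝ) (j k : Fin 3) (h : j ≠ k) (x : ℝ) :
    dg s * tv j k h x * (dg s)⁻¹ = tv j k h (Real.exp (s j) * x * Real.exp (-s k)) := by
  rw [dg_inv]
  apply Units.ext
  ext a b
  rw [Units.val_mul, Units.val_mul, dg_coe, dg_coe, Matrix.mul_diagonal, Matrix.diagonal_mul,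
    tv_coe, tv_coe]
  simp only [Matrix.transvection, Matrix.add_apply, Matrix.single_apply, Matrix.one_apply,
    Pi.neg_apply]
  split_ifs with h1 h2 h2
  · exact absurd (h2.1.trans (h1.trans h2.2.symm)) h
  · subst h1
    rw [add_zero, mul_one, ← Real.exp_add]
    simp
  · obtain ⟨rfl, rfl⟩ := h2
    ring
  · simp

theorem dg_tendsto (s : Fin 3 → ℝ) (j k : Fin 3) (h : j ≠ k) (hs : s j < s k) (x : ℝ) :
    Tendsto (fun n : ℕ => dg s ^ n * tv j k h x * (dg s ^ n)⁻¹) atTop (𝓝 1) := by
  have h1 : ∀ n : ℕ, dg s ^ n * tv j k h x * (dg s ^ n)⁻¹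
      = tv j k h (Real.exp (s j - s k) ^ n * x) := by
    intro n
    rw [dg_pow, dg_conj]
    congr 1
    rw [mul_right_comm, ← Real.exp_add, ← Real.exp_nat_mul]
    congr 2
    ring
  simp only [h1]
  rw [← tv_zero j k h]
  apply (continuous_tv j k h).continuousAt.tendsto.comp
  have h2 : Tendsto (fun n : ℕ => Real.exp (s j - s k) ^ n) atTop (𝓝 0) := by
    apply tendsto_pow_atTop_nhds_zero_of_lt_one (Real.exp_pos _).le
    rw [Real.exp_lt_one_iff]
    linarith
  simpa using h2.mul_const x

/-- the positive unit `exp x` -/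
noncomputable def expu (x : ℝ) : ℝˣ := Units.mk0 (Real.exp x) (Real.exp_ne_zero x)

theorem expu_add (x y : ℝ) : expu (x + y) = expu x * expu y := by
  apply Units.ext
  simp [expu, Real.exp_add]

theorem expu_zero : expu 0 = 1 := by
  apply Units.ext
  simp [expu]

theorem expu_neg (x : ℝ) : expu (-x) = (expu x)⁻¹ := by
  rw [eq_inv_iff_mul_eq_one, ← expu_add, neg_add_cancel, expu_zero]

theorem continuous_expu : Continuous expu := by
  rw [Units.isEmbedding_val₀.continuous_iff]
  exact Real.continuous_exp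

theorem irr : Irrational (Real.log 3 / Real.log 8) := by
  rintro ⟨q, hq⟩
  have h3 : 0 < Real.log 3 := Real.log_pos (by norm_num)
  have h8 : 0 < Real.log 8 := Real.log_pos (by norm_num)
  have hq0 : 0 < q := by
    have : (0 : ℝ) < q := by rw [hq]; positivity
    exact_mod_cast this
  have hn : 0 < q.num := Rat.num_pos.2 hq0
  obtain ⟨n, hn'⟩ : ∃ n : ℕ, q.num = n := ⟨q.num.toNat, (Int.toNat_of_nonneg hn.le).symm⟩
  have hd : (q.den : ℝ) ≠ 0 := by exact_mod_cast q.den_ne_zero
  have h1 : (q.den : ℝ) * Real.log 3 = (n : ℝ) * Real.log 8 := by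
    have h2 : (q : ℝ) = (n : ℝ) / (q.den : ℝ) := by
      rw [Rat.cast_def, hn']
      norm_cast
    rw [h2] at hq
    field_simp at hq
    linarith
  rw [← Real.log_pow, ← Real.log_pow] at h1
  have h4 : (3 : ℝ) ^ q.den = 8 ^ n :=
    Real.log_injOn_pos (by simp) (by simp) h1
  have h5 : (3 : ℕ) ^ q.den = 8 ^ n := by exact_mod_cast h4
  have h6 : Odd ((3 : ℕ) ^ q.den) := Odd.pow (by decide)
  rw [h5] at h6
  have h7 : n ≠ 0 := by
    rintro rfl
    rw [hn'] at hn
    simp at hn
  have h8 : Even ((8 : ℕ) ^ n) := Even.pow_of_ne_zero (by decide) h7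
  exact (Nat.not_even_iff_odd.2 h6) h8

theorem dm_split (d : Fin 3 → ℝˣ) :
    d = Pi.mulSingle 0 (d 0 * d 1 * d 2) * (Pi.mulSingle 1 (d 1) * Pi.mulSingle 0 (d 1)⁻¹)
      * (Pi.mulSingle 2 (d 2) * Pi.mulSingle 0 (d 2)⁻¹) := by
  funext i
  fin_cases i
  · simp [Pi.mulSingle_apply, mul_assoc]
  · simp [Pi.mulSingle_apply]
  · simp [Pi.mulSingle_apply]

theorem top_of_mautner (H : Subgroup GR) (hcl : IsClosed (H : Set GR)) (i : Fin 3)
    (ha : ai i ∈ H) (hs : scal 1 ∈ H) (hneg : (-1 : GR) ∈ H)
    (hM : ∀ a p : GR, a ∈ H → Tendsto (fun n : ℕ => a ^ n * p * (a ^ n)⁻¹) atTop (𝓝 1) → p ∈ H) :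
    H = ⊤ := by
  have l3 : 0 < Real.log 3 := Real.log_pos (by norm_num)
  -- elementary matrices in row or column `i`
  have hcol : ∀ (j : Fin 3) (h : j ≠ i) (x : ℝ), tv j i h x ∈ H := by
    intro j h x
    refine hM (ai i) _ ha ?_
    refine dg_tendsto _ j i h ?_ x
    simpa [Pi.single_apply, h] using l3
  have hrow : ∀ (k : Fin 3) (h : i ≠ k) (x : ℝ), tv i k h x ∈ H := by
    intro k h x
    refine hM (ai i)⁻¹ _ (inv_mem ha) ?_
    rw [ai, dg_inv]
    refine dg_tendsto _ i k h ?_ x
    simpa [Pi.single_apply, h.symm] using l3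
  have htv : ∀ (j k : Fin 3) (h : j ≠ k) (x : ℝ), tv j k h x ∈ H := by
    intro j k h x
    rcases eq_or_ne k i with rfl | hki
    · exact hcol j h x
    rcases eq_or_ne j i with rfl | hji
    · exact hrow k h x
    rw [← mul_one x, ← tv_comm i j k hji hki.symm h x 1]
    exact mul_mem (mul_mem (mul_mem (hcol _ _ _) (hrow _ _ _)) (hcol _ _ _)) (hrow _ _ _)
  have hw : ∀ (j k : Fin 3) (_ : j ≠ k) (t : ℝˣ),
      dm (Pi.mulSingle j t * Pi.mulSingle k t⁻¹) ∈ H := by
    intro j k h t
    rw [dm_eq j k h t]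
    exact mul_mem (mul_mem (mul_mem (htv _ _ _ _) (htv _ _ _ _)) (htv _ _ _ _))
      (mul_mem (mul_mem (htv _ _ _ _) (htv _ _ _ _)) (htv _ _ _ _))
  have hred : ∀ d : Fin 3 → ℝˣ, dm d ∈ H ↔ dm (Pi.mulSingle 0 (d 0 * d 1 * d 2)) ∈ H := by
    intro d
    rw [dm_split d, dm_mul, dm_mul, Subgroup.mul_mem_cancel_right _ (hw 2 0 (by decide) _),
      Subgroup.mul_mem_cancel_right _ (hw 1 0 (by decide) _), ← dm_split d]
  have m3 : dm (Pi.mulSingle 0 (expu (Real.log 3))) ∈ H := by
    have h1 : ai i = dm (Pi.mulSingle i (expu (Real.log 3))) := by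
      apply Units.ext
      rw [ai, dg_coe, dm_coe]
      congr 1
      funext j
      simp only [Pi.single_apply, Pi.mulSingle_apply]
      split_ifs <;> simp [expu]
    rw [h1, hred] at ha
    convert ha using 3
    fin_cases i <;> simp [Pi.mulSingle_apply]
  have m8 : dm (Pi.mulSingle 0 (expu (Real.log 8))) ∈ H := by
    have h1 : scal 1 = dm (fun _ => expu (Real.log 2)) := by
      apply Units.ext
      rw [scal, dg_coe, dm_coe]
      congr 1
      funext j
      simp [expu]
    rw [h1, hred] at hs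
    convert hs using 3
    rw [← expu_add, ← expu_add]
    congr 1
    rw [← Real.log_mul (by norm_num) (by norm_num), ← Real.log_mul (by norm_num) (by norm_num)]
    norm_num
  have mneg : dm (Pi.mulSingle 0 (-1)) ∈ H := by
    have h1 : (-1 : GR) = dm (fun _ => -1) := by
      apply Units.ext
      rw [dm_coe]
      ext a b
      simp only [Units.val_neg, Units.val_one, Matrix.neg_apply, Matrix.diagonal_apply,
        Matrix.one_apply]
      split_ifs <;> simp
    rw [h1, hred] at hneg
    convert hneg using 3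
    simp
  let E : AddSubgroup ℝ :=
    { carrier := {x | dm (Pi.mulSingle 0 (expu x)) ∈ H}
      zero_mem' := by
        simp only [mem_ofPred_eq, expu_zero, Pi.mulSingle_one, dm_one]
        exact one_mem H
      add_mem' := by
        intro x y hx hy
        simp only [mem_ofPred_eq, expu_add, Pi.mulSingle_mul, dm_mul] at *
        exact mul_mem hx hy
      neg_mem' := by
        intro x hx
        simp only [mem_ofPred_eq, expu_neg] at *
        have : dm (Pi.mulSingle 0 (expu x)⁻¹) = (dm (Pi.mulSingle 0 (expu x)))⁻¹ := by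
          rw [eq_inv_iff_mul_eq_one, ← dm_mul, ← Pi.mulSingle_mul, inv_mul_cancel,
            Pi.mulSingle_one, dm_one]
        rw [this]
        exact inv_mem hx }
  have hEcl : IsClosed (E : Set ℝ) := by
    apply hcl.preimage (f := fun x => dm (Pi.mulSingle 0 (expu x)))
    exact continuous_dm.comp ((continuous_mulSingle 0).comp continuous_expu)
  have hEtop : ∀ x : ℝ, x ∈ E := by
    have hd := dense_addSubgroupClosure_pair_iff.2 irr
    have hle : AddSubgroup.closure {Real.log 3, Real.log 8} ≤ E := by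
      rw [AddSubgroup.closure_le]
      rintro x (rfl | rfl)
      · exact m3
      · exact m8
    intro x
    have h1 : x ∈ closure (E : Set ℝ) := (hd.mono hle) x
    rwa [hEcl.closure_eq] at h1
  have hT : ∀ t : ℝˣ, dm (Pi.mulSingle 0 t) ∈ H := by
    intro t
    have h1 := hEtop (Real.log (t : ℝ))
    change dm (Pi.mulSingle 0 (expu (Real.log (t : ℝ)))) ∈ H at h1
    rcases lt_or_gt_of_ne t.ne_zero with h | h
    · have h2 : t = -1 * expu (Real.log t) := by
        apply Units.ext
        simp [expu, Real.exp_log_of_neg h]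
      rw [h2, Pi.mulSingle_mul, dm_mul]
      exact mul_mem mneg h1
    · have h2 : t = expu (Real.log t) := by
        apply Units.ext
        simp [expu, Real.exp_log h]
      rwa [h2]
  have hdm : ∀ d : Fin 3 → ℝˣ, dm d ∈ H := fun d => (hred d).2 (hT _)
  rw [Subgroup.eq_top_iff']
  have key : ∀ M : MR, M.det ≠ 0 → ∀ g : GR, (g : MR) = M → g ∈ H := by
    intro M hM'
    apply Matrix.diagonal_transvection_induction_of_det_ne_zero
      (P := fun M : MR => ∀ g : GR, (g : MR) = M → g ∈ H) M hM'
    · intro D hD g hg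
      rw [Matrix.det_diagonal] at hD
      have hD' : ∀ i, D i ≠ 0 := by
        intro i hi
        exact hD (Finset.prod_eq_zero (Finset.mem_univ i) hi)
      have : g = dm (fun i => Units.mk0 (D i) (hD' i)) := by
        apply Units.ext
        rw [hg, dm_coe]
        rfl
      rw [this]
      exact hdm _
    · intro t g hg
      have : g = tv t.i t.j t.hij t.c := by
        apply Units.ext
        rw [hg]; rfl
      rw [this]
      exact htv _ _ _ _
    · intro A B hA hB PA PB g hg
      have : g = Matrix.GeneralLinearGroup.mkOfDetNeZero A hA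
          * Matrix.GeneralLinearGroup.mkOfDetNeZero B hB := by
        apply Units.ext
        rw [hg]; rfl
      rw [this]
      exact mul_mem (PA _ rfl) (PB _ rfl)
  intro g
  refine key (g : MR) ?_ g rfl
  exact ((Matrix.isUnit_iff_isUnit_det _).1 g.isUnit).ne_zero

end KF58
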