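import Mathlib
import Pool.Agent.H22.KF.Targets

/-!
# The quotient `GL(3, ℝ) / Gam` as a probability like space
-/

open MeasureTheory Filter Topology Set Function
open scoped ENNReal Pointwise symmDiff

namespace KF58

section Gen

variable {G : Type*} [Group G] [TopologicalSpace G] [IsTopologicalGroup G]
  [PolishSpace G] [LocallyCompactSpace G]
  [MeasurableSpace G] [BorelSpace G]

theorem t2_quot (Γ : Subgroup G) (hΓ : IsClosed (Γ : Set G)) : T2Space (G ⧸ Γ) := by
  rw [t2Space_iff_of_isOpenQuotientMap (π := (QuotientGroup.mk : G → G ⧸ Γ))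
    QuotientGroup.isOpenQuotientMap_mk]
  have : {q : G × G | (QuotientGroup.mk q.1 : G ⧸ Γ) = QuotientGroup.mk q.2}
      = (fun q : G × G => q.1⁻¹ * q.2) ⁻¹' (Γ : Set G) := by
    ext q
    simp only [mem_ofPred_eq, mem_preimage, SetLike.mem_coe]
    exact QuotientGroup.eq
  rw [this]
  exact hΓ.preimage (by fun_prop)

/-- a strict fundamental domain -/
def FDom (Γ : Subgroup G) (D : Set G) : Prop :=
  MeasurableSet D ∧ ∀ g : G, ∃! γ : Γ, g * (γ : G) ∈ D

variable {Γ : Subgroup G} {D : Set G} (μ : Measure G)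

theorem FDom.isFundamentalDomain (h : FDom Γ D) : IsFundamentalDomain Γ.op D μ := by
  refine IsFundamentalDomain.mk' h.1.nullMeasurableSet ?_
  intro x
  obtain ⟨γ, hγ, hu⟩ := h.2 x
  refine ⟨⟨MulOpposite.op (γ : G), by simpa using γ.2⟩, ?_, ?_⟩
  · simpa [Subgroup.smul_def] using hγ
  · rintro ⟨y, hy⟩ hyD
    have h1 : (⟨MulOpposite.unop y, by simpa using hy⟩ : Γ) = γ := by
      apply hu
      simpa [Subgroup.smul_def] using hyD
    apply Subtype.ext
    simp only
    rw [← h1]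
    simp

/-- the measure on the quotient -/
noncomputable def quo (Γ : Subgroup G) (D : Set G) (μ : Measure G) : Measure (G ⧸ Γ) :=
  (μ.restrict D).map QuotientGroup.mk

instance op_countable [Countable Γ] : Countable Γ.op :=
  Countable.of_equiv Γ Γ.equivOp

section T2

variable [T2Space (G ⧸ Γ)]

variable (Γ) in
theorem measurable_mk : Measurable (QuotientGroup.mk : G → G ⧸ Γ) :=
  QuotientGroup.continuous_mk.measurable

theorem quo_apply {A : Set (G ⧸ Γ)} (hA : MeasurableSet A) :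
    quo Γ D μ A = μ (QuotientGroup.mk ⁻¹' A ∩ D) := by
  rw [quo, Measure.map_apply (measurable_mk Γ) hA,
    Measure.restrict_apply (measurable_mk Γ hA)]

theorem quo_univ : quo Γ D μ univ = μ D := by
  rw [quo_apply μ MeasurableSet.univ]; simp

theorem quo_finite (hfin : μ D < ∞) : IsFiniteMeasure (quo Γ D μ) :=
  ⟨by rw [quo_univ]; exact hfin⟩

theorem quo_inv [μ.IsMulLeftInvariant] [μ.IsMulRightInvariant] [Countable Γ] (h : FDom Γ D) :
    SMulInvariantMeasure G (G ⧸ Γ) (quo Γ D μ) := by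
  have hF := h.isFundamentalDomain μ
  have i1 : HasFundamentalDomain Γ.op G μ := ⟨⟨D, hF⟩⟩
  have i2 : QuotientMeasureEqMeasurePreimage μ (quo Γ D μ) :=
    hF.quotientMeasureEqMeasurePreimage_quotientMeasure
  exact QuotientMeasureEqMeasurePreimage.smulInvariantMeasure_quotient μ

theorem quo_null_iff [μ.IsMulRightInvariant] [Countable Γ] (h : FDom Γ D)
    {A : Set (G ⧸ Γ)} (hA : MeasurableSet A) :
    quo Γ D μ A = 0 ↔ μ (QuotientGroup.mk ⁻¹' A) = 0 := by
  constructor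
  · intro h0
    have h1 := (h.isFundamentalDomain μ).absolutelyContinuous_map h0
    rwa [Measure.map_apply (measurable_mk Γ) hA] at h1
  · intro h0
    rw [quo_apply μ hA]
    exact measure_mono_null inter_subset_left h0

theorem quo_qmp [μ.IsMulRightInvariant] [Countable Γ] (h : FDom Γ D) :
    Measure.QuasiMeasurePreserving (QuotientGroup.mk : G → G ⧸ Γ) μ (quo Γ D μ) :=
  ⟨measurable_mk Γ, (h.isFundamentalDomain μ).absolutelyContinuous_map⟩

theorem quo_ergodic [μ.IsMulLeftInvariant] [μ.IsMulRightInvariant] [SFinite μ] [Countable Γ]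
    (h : FDom Γ D) : ErgodicSMul G (G ⧸ Γ) (quo Γ D μ) := by
  have := quo_inv μ h
  refine ⟨fun {s} hs hinv => ?_⟩
  have h1 : EventuallyConst (QuotientGroup.mk ⁻¹' s : Set G) (ae μ) := by
    apply ErgodicSMul.aeconst_of_forall_preimage_smul_ae_eq (G := G) (measurable_mk Γ hs)
    intro g
    have h2 : ((fun x => g • x) ⁻¹' (QuotientGroup.mk ⁻¹' s : Set G))
        = (QuotientGroup.mk : G → G ⧸ Γ) ⁻¹' ((fun x => g • x) ⁻¹' s) := by
      ext x; simp
    rw [h2]
    exact (quo_qmp μ h).preimage_ae_eq (hinv g)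
  rw [eventuallyConst_set'] at h1 ⊢
  rcases h1 with h1 | h1
  · left
    rw [ae_eq_empty] at h1 ⊢
    exact (quo_null_iff μ h hs).2 h1
  · right
    rw [ae_eq_univ] at h1 ⊢
    exact (quo_null_iff μ h hs.compl).2 h1

theorem stab_closed [μ.IsMulLeftInvariant] [μ.IsMulRightInvariant] [Countable Γ]
    (h : FDom Γ D) (hfin : μ D < ∞) {s : Set (G ⧸ Γ)} (hs : MeasurableSet s) :
    IsClosed {g : G | (fun x => g • x) ⁻¹' s =ᵐ[quo Γ D μ] s} := by
  have := quo_inv μ h
  have := quo_finite (Γ := Γ) μ hfin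
  let f : C(G × (G ⧸ Γ), G ⧸ Γ) := ⟨(· • ·).uncurry, continuous_smul⟩
  exact isClosed_setOfPred_preimage_ae_eq f.curry.continuous
    (fun g => measurePreserving_smul g (quo Γ D μ)) _ hs.nullMeasurableSet (measure_ne_top _ _)

theorem mem_stab_iff [μ.IsMulLeftInvariant] [μ.IsMulRightInvariant] [Countable Γ]
    [SMulInvariantMeasure G (G ⧸ Γ) (quo Γ D μ)] {s : Set (G ⧸ Γ)} (g : G) :
    g ∈ MulAction.aestabilizer G (quo Γ D μ) s ↔
      (fun x => g • x) ⁻¹' s =ᵐ[quo Γ D μ] s := by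
  rw [← inv_mem_iff, MulAction.mem_aestabilizer, preimage_smul]

theorem stab_isClosed [μ.IsMulLeftInvariant] [μ.IsMulRightInvariant] [Countable Γ]
    [SMulInvariantMeasure G (G ⧸ Γ) (quo Γ D μ)]
    (h : FDom Γ D) (hfin : μ D < ∞) {s : Set (G ⧸ Γ)} (hs : MeasurableSet s) :
    IsClosed (MulAction.aestabilizer G (quo Γ D μ) s : Set G) := by
  have h1 := stab_closed μ h hfin hs
  have h2 : (MulAction.aestabilizer G (quo Γ D μ) s : Set G)
      = {g : G | (fun x => g • x) ⁻¹' s =ᵐ[quo Γ D μ] s} := by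
    ext g
    exact mem_stab_iff μ g
  rw [h2]; exact h1

/-- Mautner phenomenon -/
theorem mautner [μ.IsMulLeftInvariant] [μ.IsMulRightInvariant] [Countable Γ]
    [SMulInvariantMeasure G (G ⧸ Γ) (quo Γ D μ)]
    (hfin : μ D < ∞) {s : Set (G ⧸ Γ)} (hs : MeasurableSet s) {a p : G}
    (ha : a ∈ MulAction.aestabilizer G (quo Γ D μ) s)
    (hp : Tendsto (fun n : ℕ => a ^ n * p * (a ^ n)⁻¹) atTop (𝓝 1)) :
    p ∈ MulAction.aestabilizer G (quo Γ D μ) s := by
  have := quo_finite (Γ := Γ) μ hfin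
  set ν := quo Γ D μ with hν
  let f : C(G × (G ⧸ Γ), G ⧸ Γ) := ⟨(· • ·).uncurry, continuous_smul⟩
  have h1 : Tendsto (fun n : ℕ => ν (((f.curry (a ^ n * p * (a ^ n)⁻¹)) ⁻¹' s) ∆
      ((f.curry 1) ⁻¹' s))) atTop (𝓝 0) := by
    apply tendsto_measure_symmDiff_preimage_nhds_zero (μ := ν) (ν := ν)
    · exact (f.curry.continuous.tendsto 1).comp hp
    · exact Eventually.of_forall fun n => measurePreserving_smul (a ^ n * p * (a ^ n)⁻¹) ν
    · exact measurePreserving_smul (1 : G) ν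
    · exact hs.nullMeasurableSet
    · exact measure_ne_top _ _
  have h2 : ∀ n : ℕ, ν (((f.curry (a ^ n * p * (a ^ n)⁻¹)) ⁻¹' s) ∆
      ((f.curry 1) ⁻¹' s)) = ν (((fun x => p • x) ⁻¹' s) ∆ s) := by
    intro n
    have e1 : ((f.curry (1 : G)) ⁻¹' s) = s := by
      ext x
      simp [f]
    have e2 : ((f.curry (a ^ n * p * (a ^ n)⁻¹)) ⁻¹' s)
        = (fun x => (a ^ n * p * (a ^ n)⁻¹) • x) ⁻¹' s := by
      ext x
      simp [f]
    rw [e1, e2]
    have h3 : a ^ n ∈ MulAction.aestabilizer G ν s := pow_mem ha n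
    have h4 : (fun x => (a ^ n) • x) ⁻¹' s =ᵐ[ν] s := (mem_stab_iff μ _).1 h3
    have h5 : MeasurePreserving (fun x => (a ^ n)⁻¹ • x) ν ν := measurePreserving_smul _ ν
    have e3 : (fun x => (a ^ n * p * (a ^ n)⁻¹) • x) ⁻¹' s
        = (fun x => (a ^ n)⁻¹ • x) ⁻¹' ((fun x => p • x) ⁻¹' ((fun x => (a ^ n) • x) ⁻¹' s)) := by
      ext x
      simp [mul_smul]
    have e4 : (fun x => (a ^ n)⁻¹ • x) ⁻¹' ((fun x => p • x) ⁻¹' ((fun x => (a ^ n) • x) ⁻¹' s))
        =ᵐ[ν] (fun x => (a ^ n)⁻¹ • x) ⁻¹' ((fun x => p • x) ⁻¹' s) :=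
      h5.quasiMeasurePreserving.preimage_ae_eq
        ((measurePreserving_smul p ν).quasiMeasurePreserving.preimage_ae_eq h4)
    have h6 : (a ^ n)⁻¹ ∈ MulAction.aestabilizer G ν s := inv_mem h3
    have e5 : s =ᵐ[ν] (fun x => (a ^ n)⁻¹ • x) ⁻¹' s := ((mem_stab_iff μ _).1 h6).symm
    rw [e3, measure_congr (e4.symmDiff e5), ← preimage_symmDiff]
    refine h5.measure_preimage ?_
    exact (((measurable_const_smul p) hs).symmDiff hs).nullMeasurableSet
  simp only [h2] at h1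
  have h3 : ν (((fun x => p • x) ⁻¹' s) ∆ s) = 0 := tendsto_nhds_unique tendsto_const_nhds h1
  rw [mem_stab_iff]
  exact measure_symmDiff_eq_zero_iff.1 h3

end T2

end Gen

end KF58
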