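import Mathlib
import Pool.Agent.H22.KF.Targets
import Pool.Agent.H58.KF.Quot
import Pool.Agent.H58.KF.Gen

/-!
# Ergodicity of `ai i` on `GL(3, ℝ) / Gam`
-/

open MeasureTheory Filter Topology Set Function
open scoped ENNReal Pointwise symmDiff

namespace KF58

open KF

theorem fd_finite {G : Type*} [Group G] [TopologicalSpace G] [IsTopologicalGroup G]
    [PolishSpace G] [LocallyCompactSpace G] [MeasurableSpace G] [BorelSpace G]
    {Γ : Subgroup G} {D : Set G} (μ : Measure G) [μ.IsMulRightInvariant] [Countable Γ]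
    (h : FDom Γ D) {D' : Set G} (hD' : μ D' < ∞) (hc : ∀ g : G, ∃ γ ∈ Γ, g * γ ∈ D') :
    μ D < ∞ := by
  refine lt_of_le_of_lt ?_ hD'
  rw [(h.isFundamentalDomain μ).measure_eq_tsum D']
  refine le_trans ?_ (measure_iUnion_le _)
  apply measure_mono
  intro g hg
  obtain ⟨γ, hγ, hgD⟩ := hc g
  refine mem_iUnion.2 ⟨⟨MulOpposite.op γ⁻¹, by simpa using hγ⟩, ?_, hg⟩
  refine ⟨g * γ, hgD, ?_⟩
  simp [Subgroup.smul_def]

theorem scal_mem (k : ℤ) : scal k ∈ Gam := ⟨1, k, by rw [map_one, one_mul]⟩

theorem neg_mem : (-1 : GR) ∈ Gam := by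
  refine ⟨-1, 0, ?_⟩
  rw [scal_zero, mul_one]
  apply Units.ext
  ext i j
  rw [toR_apply]
  simp [Matrix.one_apply]

theorem ERG (hHAAR : T_HAAR) (hDISC : T_DISC) (hFD : T_FD) (hCOV : T_COV) : T_ERG := by
  intro i s hs hinv hae
  obtain ⟨hL, hR, hH⟩ := hHAAR
  obtain ⟨_, hcount, hcl⟩ := hDISC
  obtain ⟨D, hD⟩ := hFD
  obtain ⟨D', hD'm, hD'fin, hD'c⟩ := hCOV
  have hFDom : FDom Gam D := hD
  have hfin : haarG D < ∞ := fd_finite haarG hFDom hD'fin hD'c
  have : T2Space (GR ⧸ Gam) := t2_quot Gam hcl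
  have i1 := quo_inv haarG hFDom
  have i2 := quo_ergodic haarG hFDom
  -- the set on the quotient
  obtain ⟨t, ht⟩ : ∃ t : Set (GR ⧸ Gam), QuotientGroup.mk ⁻¹' t = s := by
    refine ⟨QuotientGroup.mk '' s, ?_⟩
    ext g
    constructor
    · rintro ⟨g', hg', h⟩
      have h1 := QuotientGroup.eq.1 h
      have h2 := (hinv g' _ h1).2 hg'
      simpa using h2
    · intro hg
      exact ⟨g, hg, rfl⟩
  have htm : MeasurableSet t := by
    rw [← ht] at hs
    exact measurableSet_quotient.2 hs
  set H := MulAction.aestabilizer GR (quo Gam D haarG) t with hHdef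
  have hHcl : IsClosed (H : Set GR) := stab_isClosed haarG hFDom hfin htm
  have hai : ai i ∈ H := by
    rw [hHdef, mem_stab_iff, ← measure_symmDiff_eq_zero_iff]
    rw [quo_null_iff haarG hFDom (((measurable_const_smul (ai i)) htm).symmDiff htm),
      preimage_symmDiff, ht]
    have h1 : (QuotientGroup.mk : GR → GR ⧸ Gam) ⁻¹' ((fun x => ai i • x) ⁻¹' t)
        = (fun g => ai i * g) ⁻¹' s := by
      rw [← ht]
      ext g
      simp
    rw [h1, measure_symmDiff_eq_zero_iff]
    filter_upwards [hae] with g hg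
    exact propext hg
  have hcent : ∀ z ∈ Gam, (∀ g : GR, z * g = g * z) → z ∈ H := by
    intro z hz hzc
    have h1 : (fun x : GR ⧸ Gam => z • x) = id := by
      funext x
      induction x using QuotientGroup.induction_on with
      | H g =>
        simp only [id]
        change (QuotientGroup.mk (z * g) : GR ⧸ Gam) = QuotientGroup.mk g
        rw [hzc g]
        exact QuotientGroup.mk_mul_of_mem g hz
    rw [hHdef, mem_stab_iff, h1]
    rfl
  have htop : H = ⊤ := by
    refine top_of_mautner H hHcl i hai ?_ ?_ ?_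
    · exact hcent _ (scal_mem 1) (scal_comm 1)
    · exact hcent _ neg_mem (fun g => by simp)
    · intro a p ha hp
      exact mautner haarG hfin htm ha hp
  have hconst : EventuallyConst t (ae (quo Gam D haarG)) :=
    MulAction.aeconst_of_aestabilizer_eq_top GR htm.nullMeasurableSet htop
  rw [eventuallyConst_set'] at hconst
  rcases hconst with h | h
  · left
    rw [ae_eq_empty, quo_null_iff haarG hFDom htm, ht] at h
    exact h
  · right
    rw [ae_eq_univ, quo_null_iff haarG hFDom htm.compl, preimage_compl, ht] at h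
    exact h

end KF58
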