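import Mathlib

/-!
# Mean ergodic theorem: almost everywhere convergence along a subsequence
-/

open MeasureTheory Filter Topology Set Function
open scoped ENNReal

namespace KF58

theorem mean_ae {X : Type*} [MeasurableSpace X] (ν : Measure X) [IsFiniteMeasure ν] {T : X → X}
    (hT : Ergodic T ν) {F : X → ℝ} (hF : MemLp F 2 ν) :
    ∃ κ : ℕ → ℕ, StrictMono κ ∧ ∀ᵐ x ∂ν,
      Tendsto (fun k => (∑ n ∈ Finset.range (κ k), F (T^[n] x)) / (κ k : ℝ)) atTop
        (𝓝 ((∫ x, F x ∂ν) / (ν univ).toReal)) := by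
  classical
  rcases eq_or_ne ν 0 with hν | hν
  · refine ⟨id, strictMono_id, ?_⟩
    rw [hν]
    simp
  have hνu : (ν univ).toReal ≠ 0 := by
    rw [ENNReal.toReal_ne_zero]
    exact ⟨by simpa using hν, measure_ne_top _ _⟩
  set u : Lp ℝ 2 ν := hF.toLp F with hu
  set K : Lp ℝ 2 ν →L[ℝ] Lp ℝ 2 ν :=
    (Lp.compMeasurePreservingₗᵢ ℝ T hT.toMeasurePreserving).toContinuousLinearMap with hK
  have hKn : ‖K‖ ≤ 1 := LinearIsometry.norm_toContinuousLinearMap_le _
  have hKe : ∀ w : Lp ℝ 2 ν, K w = Lp.compMeasurePreserving T hT.toMeasurePreserving w :=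
    fun w => rfl
  have htend := K.tendsto_birkhoffAverage_orthogonalProjection hKn u
  set S := K.eqLocus (1 : Lp ℝ 2 ν →L[ℝ] Lp ℝ 2 ν) with hS
  set p : Lp ℝ 2 ν := (S.orthogonalProjectionOnto u).1 with hp
  have hpS : p ∈ S := (S.orthogonalProjectionOnto u).2
  have hKp : K p = p := hpS
  -- `p` is constant
  obtain ⟨c, hc⟩ : ∃ c, (p : X → ℝ) =ᵐ[ν] Function.const X c := by
    apply hT.ae_eq_const_of_ae_eq_comp_ae (Lp.aestronglyMeasurable p)
    have h1 := Lp.coeFn_compMeasurePreserving p hT.toMeasurePreserving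
    rw [← hKe, hKp] at h1
    exact h1.symm
  -- its value
  have hcv : c = (∫ x, F x ∂ν) / (ν univ).toReal := by
    set one : Lp ℝ 2 ν := (memLp_const (1 : ℝ)).toLp (fun _ : X => (1 : ℝ)) with hone
    have honeS : one ∈ S := by
      change K one = one
      rw [hKe]
      rfl
    have h1 : inner ℝ (u - p) one = 0 := S.starProjection_inner_eq_zero u one honeS
    rw [inner_sub_left, sub_eq_zero, L2.inner_def, L2.inner_def] at h1
    have hone' : (one : X → ℝ) =ᵐ[ν] fun _ => 1 := MemLp.coeFn_toLp _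
    have h2 : ∫ a, inner ℝ ((u : X → ℝ) a) ((one : X → ℝ) a) ∂ν = ∫ x, F x ∂ν := by
      apply integral_congr_ae
      filter_upwards [hone', hF.coeFn_toLp] with x hx hx'
      rw [hx, hx']
      simp
    have h3 : ∫ a, inner ℝ ((p : X → ℝ) a) ((one : X → ℝ) a) ∂ν = c * (ν univ).toReal := by
      have : ∫ a, inner ℝ ((p : X → ℝ) a) ((one : X → ℝ) a) ∂ν = ∫ _ : X, c ∂ν := by
        apply integral_congr_ae
        filter_upwards [hone', hc] with x hx hx'
        rw [hx, hx']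
        simp
      rw [this, integral_const, smul_eq_mul, mul_comm]
      rfl
    rw [h2, h3] at h1
    rw [h1]
    field_simp
  -- the averages
  have hsum : ∀ N : ℕ, ((∑ n ∈ Finset.range N, (K^[n] u) : Lp ℝ 2 ν) : X → ℝ)
      =ᵐ[ν] fun x => ∑ n ∈ Finset.range N, F (T^[n] x) := by
    intro N
    induction N with
    | zero =>
      simp only [Finset.range_zero, Finset.sum_empty]
      exact Lp.coeFn_zero _ _ _
    | succ N ih =>
      rw [Finset.sum_range_succ]
      have h1 : ((K^[N] u : Lp ℝ 2 ν) : X → ℝ) =ᵐ[ν] fun x => F (T^[N] x) := by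
        have h2 : K^[N] u = Lp.compMeasurePreserving T^[N] (hT.toMeasurePreserving.iterate N) u := by
          rw [← Lp.compMeasurePreserving_iterate]
          rfl
        rw [h2, hu, Lp.toLp_compMeasurePreserving]
        exact MemLp.coeFn_toLp _
      filter_upwards [Lp.coeFn_add (∑ n ∈ Finset.range N, (K^[n] u)) (K^[N] u), ih, h1]
        with x h3 h4 h5
      rw [h3, Pi.add_apply, h4, h5, Finset.sum_range_succ]
  have havg : ∀ N : ℕ, ((birkhoffAverage ℝ K id N u : Lp ℝ 2 ν) : X → ℝ)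
      =ᵐ[ν] fun x => (∑ n ∈ Finset.range N, F (T^[n] x)) / (N : ℝ) := by
    intro N
    have h1 : birkhoffAverage ℝ K id N u = (N : ℝ)⁻¹ • ∑ n ∈ Finset.range N, (K^[n] u) := by
      rw [birkhoffAverage, birkhoffSum]
      rfl
    rw [h1]
    filter_upwards [Lp.coeFn_smul (N : ℝ)⁻¹ (∑ n ∈ Finset.range N, (K^[n] u)), hsum N]
      with x h2 h3
    rw [h2, Pi.smul_apply, h3, smul_eq_mul, inv_mul_eq_div]
  obtain ⟨κ, hκ, hκt⟩ := (tendstoInMeasure_of_tendsto_Lp htend).exists_seq_tendsto_ae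
  refine ⟨κ, hκ, ?_⟩
  filter_upwards [hκt, hc, ae_all_iff.2 havg] with x h1 h2 h3
  have h4 : (p : X → ℝ) x = (∫ x, F x ∂ν) / (ν univ).toReal := by
    rw [h2, ← hcv]
    rfl
  rw [← h4]
  refine h1.congr ?_
  intro k
  rw [← h3 (κ k)]

end KF58
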