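import Mathlib
import Pool.Agent.H22.KF.Targets
import Pool.Agent.H58.KF.Quot
import Pool.Agent.H58.KF.MeanAE

/-!
# Almost everywhere convergence of the ergodic averages along a subsequence
-/

open MeasureTheory Filter Topology Set Function
open scoped ENNReal Pointwise CompactlySupported

namespace KF58

open KF

theorem autom_mk (f : GR → ℝ) (g : GR) :
    (QuotientGroup.automorphize f : GR ⧸ Gam → ℝ) (QuotientGroup.mk g) = per f g := by
  exact (Gam.equivOp.tsum_eq (fun a : Gam.op => f (a • g))).symm

theorem MEAN (hERG : T_ERG) (hUC : T_UC) (hHAAR : T_HAAR) (hDISC : T_DISC) : T_MEAN := by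
  intro D hD hfin i f
  obtain ⟨hL, hR, hH⟩ := hHAAR
  obtain ⟨_, hcount, hcl⟩ := hDISC
  have hFDom : FDom Gam D := hD
  have : T2Space (GR ⧸ Gam) := t2_quot Gam hcl
  have i1 := quo_inv haarG hFDom
  have i2 := quo_finite (Γ := Gam) haarG hfin
  obtain ⟨hcont, ⟨B, hB⟩, -, hinv, -⟩ := hUC f
  have hT : Ergodic (fun x : GR ⧸ Gam => ai i • x) (quo Gam D haarG) := by
    refine ⟨measurePreserving_smul (ai i) _, ⟨?_⟩⟩
    intro t ht hti
    have h1 := hERG i (QuotientGroup.mk ⁻¹' t) (measurable_mk Gam ht) ?_ ?_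
    · rw [eventuallyConst_set']
      rcases h1 with h | h
      · left
        rw [ae_eq_empty, quo_null_iff haarG hFDom ht]
        exact h
      · right
        rw [ae_eq_univ, quo_null_iff haarG hFDom ht.compl, preimage_compl]
        exact h
    · intro g γ hγ
      rw [mem_preimage, mem_preimage, QuotientGroup.mk_mul_of_mem g hγ]
    · refine Eventually.of_forall ?_
      intro g
      have h2 : (QuotientGroup.mk g : GR ⧸ Gam) ∈ (fun x : GR ⧸ Gam => ai i • x) ⁻¹' t ↔
        (QuotientGroup.mk g : GR ⧸ Gam) ∈ t := by rw [hti]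
      exact h2
  set F : GR ⧸ Gam → ℝ := QuotientGroup.automorphize (f : GR → ℝ) with hF
  have hFmk : ∀ g : GR, F (QuotientGroup.mk g) = per f g := autom_mk f
  have hFc : Continuous F := by
    rw [QuotientGroup.isOpenQuotientMap_mk.isQuotientMap.continuous_iff]
    have : F ∘ (QuotientGroup.mk : GR → GR ⧸ Gam) = per f := funext hFmk
    rw [this]
    exact hcont
  have hFB : ∀ x, ‖F x‖ ≤ B := by
    intro x
    induction x using QuotientGroup.induction_on with
    | H g => rw [hFmk]; exact hB g
  have hFm : MemLp F 2 (quo Gam D haarG) :=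
    MemLp.of_bound hFc.aestronglyMeasurable B (Eventually.of_forall hFB)
  have hint : ∫ x, F x ∂(quo Gam D haarG) = ∫ g, f g ∂haarG := by
    symm
    apply QuotientGroup.integral_eq_integral_automorphize (hFDom.isFundamentalDomain haarG)
    · exact f.continuous.integrable_of_hasCompactSupport f.hasCompactSupport
    · exact hFc.aestronglyMeasurable
  obtain ⟨κ, hκ, hκt⟩ := mean_ae (quo Gam D haarG) hT hFm
  refine ⟨κ, hκ, ?_⟩
  have h1 := (quo_qmp haarG hFDom).ae hκt
  filter_upwards [h1] with g hg
  rw [hint, quo_univ] at hg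
  refine hg.congr ?_
  intro k
  rw [SN]
  congr 1
  apply Finset.sum_congr rfl
  intro n _
  rw [← hFmk, smul_iterate]
  rfl

end KF58
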